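import Pool.Agent.Helper13.RS.St

/-!
# RS module DA: deterministic survivors, small `z`: the products `m q`
-/

set_option autoImplicit false

open Pool.Agent.Helper13.RS Finset

namespace Pool.Agent.Helper67.RS

private lemma e2_cases (a : ℕ → ℤ) : e2 a = 1 ∨ e2 a = 2 := by
  unfold e2
  split_ifs
  · exact Or.inl rfl
  · exact Or.inr rfl

private lemma floor_half (t : ℝ) (ht : 1 ≤ t) : t / 2 ≤ (⌊t⌋₊ : ℝ) := by
  have h1 : t < ⌊t⌋₊ + 1 := Nat.lt_floor_add_one t
  have h2 : (1 : ℝ) ≤ ⌊t⌋₊ := by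
    have : 1 ≤ ⌊t⌋₊ := Nat.one_le_iff_ne_zero.mpr (by
      intro h
      rw [Nat.floor_eq_zero] at h
      linarith)
    exact_mod_cast this
  linarith

private lemma natdiv_half (u v : ℕ) (hv : 0 < v) (h : v ≤ u) :
    (u : ℝ) / v / 2 ≤ ((u / v : ℕ) : ℝ) := by
  have h1 : (1 : ℝ) ≤ (u : ℝ) / v := by
    rw [le_div_iff₀ (by exact_mod_cast hv), one_mul]
    exact_mod_cast h
  have := floor_half ((u : ℝ) / v) h1
  rwa [Nat.floor_div_eq_div (K := ℝ)] at this

theorem hDA (h1 : StSM) (h2 : StPQ) (h3 : StLO) : StDA := by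
  obtain ⟨c₂, hc₂, H2⟩ := h2
  obtain ⟨c₁, κ, X₀, hc₁, hκ, hκ4, hX₀, H3⟩ := h3
  refine ⟨c₁ * c₂ / 48, κ, max X₀ 8, by positivity, hκ, hκ4, le_max_right _ _, ?_⟩
  intro x y w a hx hw hwx hxy hyw
  have hxX₀ : X₀ ≤ (x : ℝ) := (le_max_left _ _).trans hx
  have hx8 : (8 : ℝ) ≤ x := (le_max_right _ _).trans hx
  have hx8' : 8 ≤ x := by exact_mod_cast hx8
  have hx0 : (0 : ℝ) < x := by linarith
  have hy0 : (0 : ℝ) < y := by
    have : 0 < y := by omega
    exact_mod_cast this
  have hxk : (x : ℝ) ^ κ ≤ x := by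
    calc (x : ℝ) ^ κ ≤ (x : ℝ) ^ (1 : ℝ) :=
          Real.rpow_le_rpow_of_exponent_le (by linarith) (by linarith)
      _ = x := Real.rpow_one _
  have hwx' : w ≤ x := hwx.trans hxk
  set U : ℕ := y / (8 * x) with hU
  have hUy : U * (8 * x) ≤ y := Nat.div_mul_le_self y (8 * x)
  have hU8 : 8 ≤ U := by
    rw [hU, Nat.le_div_iff_mul_le (by omega)]
    omega
  have hUw : (U : ℝ) * 8 ≤ w := by
    have h : ((U * (8 * x) : ℕ) : ℝ) ≤ x * w := by
      refine le_trans ?_ hyw
      exact_mod_cast hUy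
    push_cast at h
    have h' : (x : ℝ) * (U * 8) ≤ x * w := by linarith
    exact le_of_mul_le_mul_left h' hx0
  have hlogx : 0 < Real.log x := Real.log_pos (by linarith)
  have hlogw : 0 < Real.log w := Real.log_pos (by linarith)
  have hlogy : Real.log y ≤ 2 * Real.log x := by
    have h : (y : ℝ) ≤ (x : ℝ) ^ (2 : ℕ) := by
      calc (y : ℝ) ≤ x * w := hyw
        _ ≤ x * x := by
          apply mul_le_mul_of_nonneg_left hwx' hx0.le
        _ = (x : ℝ) ^ (2 : ℕ) := by ring
    calc Real.log y ≤ Real.log ((x : ℝ) ^ (2 : ℕ)) := Real.log_le_log hy0 h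
      _ = 2 * Real.log x := by
        rw [Real.log_pow]
        norm_num
  set M : Finset ℕ := (Icc 1 U).filter (fun m => ∀ p ∈ BB w a, ¬ p ∣ m) with hM
  have hMm : ∀ m ∈ M, 1 ≤ m ∧ m ≤ U ∧ ∀ p ∈ BB w a, ¬ p ∣ m := by
    intro m hm
    rw [hM, mem_filter, mem_Icc] at hm
    exact ⟨hm.1.1, hm.1.2, hm.2⟩
  have he := e2_cases a
  have he1 : 1 ≤ e2 a := by omega
  have he2 : e2 a ≤ 2 := by omega
  have hn0 : ∀ m ∈ M, 1 ≤ e2 a * m ∧ e2 a * m * (4 * x) ≤ y := by
    intro m hm
    obtain ⟨hm1, hm2, -⟩ := hMm m hm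
    refine ⟨Nat.one_le_iff_ne_zero.mpr (Nat.mul_ne_zero (by omega) (by omega)), ?_⟩
    calc e2 a * m * (4 * x) ≤ 2 * U * (4 * x) := by
          apply Nat.mul_le_mul_right
          exact Nat.mul_le_mul he2 hm2
      _ = U * (8 * x) := by ring
      _ ≤ y := hUy
  have hX : ∀ m ∈ M, 2 * x ≤ y / (2 * (e2 a * m)) := by
    intro m hm
    obtain ⟨h, h'⟩ := hn0 m hm
    rw [Nat.le_div_iff_mul_le (by omega)]
    calc 2 * x * (2 * (e2 a * m)) = e2 a * m * (4 * x) := by ring
      _ ≤ y := h'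
  have key : ∀ m ∈ M, ∃ F : Finset ℕ,
      (∀ q ∈ F, y / (2 * (e2 a * m)) < q ∧ q ≤ 2 * (y / (2 * (e2 a * m))) ∧ q.Prime ∧
        Avd w a (e2 a * m * 1 * q)) ∧
      c₁ * (((y / (2 * (e2 a * m)) : ℕ) : ℝ) / Real.log ((y / (2 * (e2 a * m)) : ℕ) : ℝ)) *
        ∏ s ∈ QQ w a, (1 - 1 / ((s : ℝ) - 1)) ≤ F.card := by
    intro m hm
    obtain ⟨hm1, hm2, hm3⟩ := hMm m hm
    have hXr : (x : ℝ) ≤ ((y / (2 * (e2 a * m)) : ℕ) : ℝ) := by
      have := hX m hm
      have h' : x ≤ y / (2 * (e2 a * m)) := by omega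
      exact_mod_cast h'
    refine H3 w a m 1 _ (by linarith) (hxX₀.trans hXr) ?_ hm1 le_rfl hm3 ?_
    · exact hwx.trans (Real.rpow_le_rpow hx0.le hXr hκ.le)
    · intro p hp hp1
      exact absurd (Nat.le_of_dvd one_pos hp1) (by have := hp.two_le; omega)
  choose! F hF1 hF2 using key
  classical
  refine ⟨M.biUnion (fun m => (F m).image (fun q => e2 a * m * q)), ?_, ?_, ?_⟩
  · intro n hn
    rw [mem_biUnion] at hn
    obtain ⟨m, hm, hn⟩ := hn
    obtain ⟨q, hq, rfl⟩ := mem_image.mp hn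
    obtain ⟨hq1, hq2, hq3, hq4⟩ := hF1 m hm q hq
    obtain ⟨h, h'⟩ := hn0 m hm
    refine ⟨Nat.one_le_iff_ne_zero.mpr (Nat.mul_ne_zero (by omega) hq3.ne_zero), ?_, ?_⟩
    · calc e2 a * m * q ≤ e2 a * m * (2 * (y / (2 * (e2 a * m)))) := Nat.mul_le_mul_left _ hq2
        _ = (y / (2 * (e2 a * m))) * (2 * (e2 a * m)) := by ring
        _ ≤ y := Nat.div_mul_le_self _ _
    · rwa [mul_one] at hq4
  · intro n hn p hp hwp hpn
    rw [mem_biUnion] at hn
    obtain ⟨m, hm, hn⟩ := hn
    obtain ⟨q, hq, rfl⟩ := mem_image.mp hn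
    obtain ⟨hq1, hq2, hq3, hq4⟩ := hF1 m hm q hq
    obtain ⟨h, h'⟩ := hn0 m hm
    obtain ⟨hm1, hm2, -⟩ := hMm m hm
    rcases (hp.dvd_mul).mp hpn with h5 | h5
    · exfalso
      have h6 : p ≤ e2 a * m := Nat.le_of_dvd (by omega) h5
      have h7 : e2 a * m ≤ 2 * U := Nat.mul_le_mul he2 hm2
      have h8 : (p : ℝ) ≤ 2 * U := by exact_mod_cast h6.trans h7
      have h9 : (0 : ℝ) ≤ U := Nat.cast_nonneg _
      linarith
    · have h6 : p = q := (Nat.prime_dvd_prime_iff_eq hp hq3).mp h5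
      have := hX m hm
      omega
  · have hcard : (M.biUnion (fun m => (F m).image (fun q => e2 a * m * q))).card =
        ∑ m ∈ M, (F m).card := by
      rw [card_biUnion]
      · refine sum_congr rfl fun m hm => ?_
        rw [card_image_of_injOn]
        intro q _ q' _ hqq
        have hqq' : e2 a * m * q = e2 a * m * q' := hqq
        exact Nat.eq_of_mul_eq_mul_left (by have := (hn0 m hm).1; omega) hqq'
      · intro m hm m' hm' hne
        change Disjoint ((F m).image (fun q => e2 a * m * q)) ((F m').image (fun q => e2 a * m' * q))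
        rw [disjoint_left]
        intro n hn hn'
        obtain ⟨q, hq, rfl⟩ := mem_image.mp hn
        obtain ⟨q', hq', hqq⟩ := mem_image.mp hn'
        obtain ⟨hq1, hq2, hq3, hq4⟩ := hF1 m hm q hq
        obtain ⟨hq1', hq2', hq3', hq4'⟩ := hF1 m' hm' q' hq'
        have hqq' : m' * q' = m * q := by
          have : e2 a * (m' * q') = e2 a * (m * q) := by
            rw [← mul_assoc, ← mul_assoc]
            exact hqq
          exact Nat.eq_of_mul_eq_mul_left (by omega) this
        obtain ⟨hm1', hm2', -⟩ := hMm m' hm'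
        have hqd : q ∣ m' * q' := by
          rw [hqq']
          exact Dvd.intro_left m rfl
        rcases (hq3.dvd_mul).mp hqd with h5 | h5
        · have h6 : q ≤ m' := Nat.le_of_dvd (by omega) h5
          have h7 := hX m hm
          have h8 : x ≤ U := by omega
          have h9 : (x : ℝ) ≤ U := by exact_mod_cast h8
          have h10 : (0 : ℝ) < x := hx0
          linarith
        · have h6 : q = q' := (Nat.prime_dvd_prime_iff_eq hq3 hq3').mp h5
          subst h6
          exact hne (Nat.eq_of_mul_eq_mul_right hq3.pos hqq'.symm)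
    rw [hcard]
    push_cast
    have hPQ0 : 0 ≤ ∏ s ∈ QQ w a, (1 - 1 / ((s : ℝ) - 1)) := by
      apply prod_nonneg
      intro s hs
      unfold QQ at hs
      rw [mem_filter, mem_Icc] at hs
      have h3s : (3 : ℝ) ≤ s := by exact_mod_cast hs.1.1
      have : 1 / ((s : ℝ) - 1) ≤ 1 := by
        rw [div_le_one (by linarith)]
        linarith
      linarith
    have hterm : ∀ m ∈ M, c₁ * (y / (16 * Real.log x)) *
        (∏ s ∈ QQ w a, (1 - 1 / ((s : ℝ) - 1))) * (1 / (m : ℝ)) ≤ ((F m).card : ℝ) := by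
      intro m hm
      refine le_trans ?_ (hF2 m hm)
      obtain ⟨hm1, hm2, -⟩ := hMm m hm
      have hm0 : (0 : ℝ) < m := by
        have : 0 < m := hm1
        exact_mod_cast this
      obtain ⟨h, h'⟩ := hn0 m hm
      have hXm := hX m hm
      have hXr : (16 : ℝ) ≤ ((y / (2 * (e2 a * m)) : ℕ) : ℝ) := by
        have h' : 16 ≤ y / (2 * (e2 a * m)) := by omega
        exact_mod_cast h'
      have hXl : 0 < Real.log ((y / (2 * (e2 a * m)) : ℕ) : ℝ) := Real.log_pos (by linarith)
      have hXu : Real.log ((y / (2 * (e2 a * m)) : ℕ) : ℝ) ≤ 2 * Real.log x := by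
        refine le_trans (Real.log_le_log (by linarith) ?_) hlogy
        exact_mod_cast Nat.div_le_self _ _
      have hXlow : (y : ℝ) / (8 * m) ≤ ((y / (2 * (e2 a * m)) : ℕ) : ℝ) := by
        have h5 : 2 * (e2 a * m) ≤ y := by
          have h6 : e2 a * m ≤ e2 a * m * (2 * x) := Nat.le_mul_of_pos_right _ (by omega)
          have h7 : 2 * (e2 a * m * (2 * x)) = e2 a * m * (4 * x) := by ring
          omega
        have h8 := natdiv_half y (2 * (e2 a * m)) (by omega) h5
        refine le_trans ?_ h8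
        push_cast
        have he2r : ((e2 a : ℕ) : ℝ) ≤ 2 := by exact_mod_cast he2
        have he1r : (1 : ℝ) ≤ ((e2 a : ℕ) : ℝ) := by exact_mod_cast he1
        rw [div_div]
        apply div_le_div_of_nonneg_left hy0.le (by positivity)
        nlinarith
      have hq : (y : ℝ) / (16 * Real.log x) * (1 / (m : ℝ)) ≤
          ((y / (2 * (e2 a * m)) : ℕ) : ℝ) / Real.log ((y / (2 * (e2 a * m)) : ℕ) : ℝ) := by
        have h5 : (y : ℝ) / (16 * Real.log x) * (1 / (m : ℝ)) =
            (y : ℝ) / (8 * m) / (2 * Real.log x) := by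
          field_simp
          ring
        rw [h5]
        exact div_le_div₀ (by linarith) hXlow hXl hXu
      calc c₁ * (y / (16 * Real.log x)) * (∏ s ∈ QQ w a, (1 - 1 / ((s : ℝ) - 1))) * (1 / (m : ℝ))
          = c₁ * ((y : ℝ) / (16 * Real.log x) * (1 / (m : ℝ))) *
            (∏ s ∈ QQ w a, (1 - 1 / ((s : ℝ) - 1))) := by ring
        _ ≤ _ := by
          apply mul_le_mul_of_nonneg_right _ hPQ0
          exact mul_le_mul_of_nonneg_left hq hc₁.le
    refine le_trans ?_ (sum_le_sum hterm)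
    rw [← mul_sum]
    have hSM := h1 (BB w a) U (by
      intro p hp
      unfold BB at hp
      rw [mem_filter] at hp
      exact hp.2.1) (by omega)
    have hPQ := H2 w a hw
    have hlogU : Real.log (y / x) / 3 ≤ Real.log U := by
      have ht : (64 : ℝ) ≤ (y : ℝ) / x := by
        rw [le_div_iff₀ hx0]
        exact_mod_cast hxy
      have h5 := natdiv_half y (8 * x) (by omega) (by omega)
      rw [← hU] at h5
      have h6 : (y : ℝ) / x / 16 ≤ U := by
        refine le_trans (le_of_eq ?_) h5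
        push_cast
        field_simp
        ring
      have h7 : Real.log ((y : ℝ) / x / 16) ≤ Real.log U := Real.log_le_log (by positivity) h6
      rw [Real.log_div (by positivity) (by norm_num)] at h7
      have h8 : Real.log 64 ≤ Real.log ((y : ℝ) / x) := Real.log_le_log (by norm_num) ht
      have h9 : Real.log 64 = 6 * Real.log 2 := by
        rw [show (64 : ℝ) = 2 ^ (6 : ℕ) by norm_num, Real.log_pow]
        norm_num
      have h10 : Real.log 16 = 4 * Real.log 2 := by
        rw [show (16 : ℝ) = 2 ^ (4 : ℕ) by norm_num, Real.log_pow]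
        norm_num
      have h11 : 0 < Real.log 2 := Real.log_pos (by norm_num)
      linarith
    have hyx : 0 ≤ Real.log ((y : ℝ) / x) := by
      apply Real.log_nonneg
      rw [le_div_iff₀ hx0]
      have : x ≤ y := by omega
      rw [one_mul]
      exact_mod_cast this
    have hBB0 : 0 ≤ ∏ p ∈ BB w a, (1 - 1 / (p : ℝ)) := by
      apply prod_nonneg
      intro p hp
      unfold BB at hp
      rw [mem_filter, mem_Icc] at hp
      have h2p : (2 : ℝ) ≤ p := by exact_mod_cast hp.1.1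
      have : 1 / (p : ℝ) ≤ 1 := by
        rw [div_le_one (by linarith)]
        linarith
      linarith
    have hA : (0 : ℝ) ≤ c₁ * (y / (16 * Real.log x)) := by positivity
    calc c₁ * c₂ / 48 * (y / Real.log x) * (Real.log (y / x) / Real.log w)
        = c₁ * (y / (16 * Real.log x)) * ((c₂ / Real.log w) * (Real.log (y / x) / 3)) := by
          field_simp
          ring
      _ ≤ c₁ * (y / (16 * Real.log x)) * (((∏ p ∈ BB w a, (1 - 1 / (p : ℝ))) *
            ∏ s ∈ QQ w a, (1 - 1 / ((s : ℝ) - 1))) * (Real.log (y / x) / 3)) := by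
          apply mul_le_mul_of_nonneg_left _ hA
          exact mul_le_mul_of_nonneg_right hPQ (by positivity)
      _ ≤ c₁ * (y / (16 * Real.log x)) * (((∏ p ∈ BB w a, (1 - 1 / (p : ℝ))) *
            ∏ s ∈ QQ w a, (1 - 1 / ((s : ℝ) - 1))) * Real.log U) := by
          apply mul_le_mul_of_nonneg_left _ hA
          exact mul_le_mul_of_nonneg_left hlogU (mul_nonneg hBB0 hPQ0)
      _ = c₁ * (y / (16 * Real.log x)) * (∏ s ∈ QQ w a, (1 - 1 / ((s : ℝ) - 1))) *
            ((∏ p ∈ BB w a, (1 - 1 / (p : ℝ))) * Real.log U) := by ring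
      _ ≤ _ := by
          apply mul_le_mul_of_nonneg_left hSM (mul_nonneg hA hPQ0)

end Pool.Agent.Helper67.RS
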