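import Pool.Agent.Helper73.RS.St

/-! Project RS, module CPT: the good means form a compact set. -/

namespace Pool.Agent.Helper67.RS

open Pool.Agent.Helper73.RS
open Filter Topology

theorem continuous_eval (f : ℕ → ℝ) : Continuous (fun m : W => m f) := by
  show Continuous (fun m : (ℕ → ℝ) → ℝ => m f)
  exact continuous_apply f

theorem isClosed_isMean : IsClosed {m : W | IsMean m} := by
  have h : {m : W | IsMean m} =
      ({m : W | ∀ f g : ℕ → ℝ, Bd f → Bd g → m (fun x => f x + g x) = m f + m g} ∩
      {m : W | ∀ (c : ℝ) (f : ℕ → ℝ), Bd f → m (fun x => c * f x) = c * m f}) ∩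
      (({m : W | ∀ f : ℕ → ℝ, Bd f → (∀ x, 0 ≤ f x) → 0 ≤ m f} ∩
      {m : W | m (fun _ => 1) = 1}) ∩ {m : W | ∀ f : ℕ → ℝ, ¬ Bd f → m f = 0}) := by
    ext m
    constructor
    · intro hm
      exact ⟨⟨hm.add, hm.smul⟩, ⟨hm.nonneg, hm.one⟩, hm.junk⟩
    · rintro ⟨⟨h1, h2⟩, ⟨h3, h4⟩, h5⟩
      exact ⟨h1, h2, h3, h4, h5⟩
  rw [h]
  refine ((IsClosed.inter ?_ ?_).inter ((IsClosed.inter ?_ ?_).inter ?_))
  · simp only [Set.ofPred_forall]
    refine isClosed_iInter fun f => isClosed_iInter fun g => isClosed_iInter fun _ =>
      isClosed_iInter fun _ => ?_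
    exact isClosed_eq (continuous_eval _) ((continuous_eval f).add (continuous_eval g))
  · simp only [Set.ofPred_forall]
    refine isClosed_iInter fun c => isClosed_iInter fun f => isClosed_iInter fun _ => ?_
    exact isClosed_eq (continuous_eval _) (continuous_const.mul (continuous_eval f))
  · simp only [Set.ofPred_forall]
    refine isClosed_iInter fun f => isClosed_iInter fun _ => isClosed_iInter fun _ => ?_
    exact isClosed_le continuous_const (continuous_eval f)
  · exact isClosed_eq (continuous_eval _) continuous_const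
  · simp only [Set.ofPred_forall]
    refine isClosed_iInter fun f => isClosed_iInter fun _ => ?_
    exact isClosed_eq (continuous_eval f) continuous_const

theorem isClosed_good : IsClosed {m : W | Good m} := by
  have h : {m : W | Good m} = {m : W | IsMean m} ∩
      ({m : W | ∀ U : Set ℕ, ¬ Large U → m (ind U) = 0} ∩
      {m : W | ∀ U : Set ℕ, ¬ Rec U → m (ind U) = 0}) := by
    ext m
    constructor
    · intro hm
      exact ⟨hm.mean, hm.large, hm.recur⟩
    · rintro ⟨h1, h2, h3⟩
      exact ⟨h1, h2, h3⟩
  rw [h]
  refine isClosed_isMean.inter (IsClosed.inter ?_ ?_)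
  · simp only [Set.ofPred_forall]
    refine isClosed_iInter fun U => isClosed_iInter fun _ => ?_
    exact isClosed_eq (continuous_eval _) continuous_const
  · simp only [Set.ofPred_forall]
    refine isClosed_iInter fun U => isClosed_iInter fun _ => ?_
    exact isClosed_eq (continuous_eval _) continuous_const

open Classical in
/-- a compact set which contains the value of every mean at `f` -/
noncomputable def box (f : ℕ → ℝ) : Set ℝ :=
  if h : Bd f then Set.Icc (-(Classical.choose h)) (Classical.choose h) else {0}

theorem isCompact_box (f : ℕ → ℝ) : IsCompact (box f) := by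
  unfold box
  split_ifs with h
  · exact isCompact_Icc
  · exact isCompact_singleton

theorem mem_box {m : W} (hm : IsMean m) (f : ℕ → ℝ) : m f ∈ box f := by
  unfold box
  split_ifs with h
  · exact abs_le.1 (hm.abs_le (Classical.choose_spec h))
  · exact hm.junk f h

theorem isCompact_pi_box : IsCompact ({m : W | ∀ f, m f ∈ box f} : Set W) := by
  have h : IsCompact (Set.pi Set.univ box) := isCompact_univ_pi fun f => isCompact_box f
  have h2 : (Set.pi Set.univ box : Set ((ℕ → ℝ) → ℝ)) = {m | ∀ f, m f ∈ box f} := by
    ext m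
    simp [Set.mem_pi]
  rw [h2] at h
  exact h

theorem holds_CPT : Pool.Agent.Helper73.RS.StCPT := by
  unfold StCPT
  exact isCompact_pi_box.of_isClosed_subset isClosed_good fun m hm f => mem_box hm.mean f

end Pool.Agent.Helper67.RS
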