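import Pool.Agent.Helper73.RS.St

/-! Project RS, module LDI: affine images of large sets are large. -/

namespace Pool.Agent.Helper67.RS

open Pool.Agent.Helper73.RS
open Filter Topology

theorem ldi_zero (n : ℕ) (V : Set ℕ) (hn : 1 ≤ n) (hV : Large V) :
    Large {y | ∃ x ∈ V, y = n * x} := by
  obtain ⟨μ, hm, hi, hpos⟩ := hV
  have hn0 : (0 : ℝ) < n := by exact_mod_cast hn
  let φ : (ℕ → ℝ) → ℝ := fun f => (∑ i ∈ Finset.range n, μ (fun x => f (n * x + i))) / n
  have hφ : IsMean (ext φ) := by
    refine isMean_ext ?_ ?_ ?_ ?_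
    · intro f g hf hg
      show (∑ i ∈ Finset.range n, μ (fun x => f (n * x + i) + g (n * x + i))) / n =
        (∑ i ∈ Finset.range n, μ (fun x => f (n * x + i))) / n +
        (∑ i ∈ Finset.range n, μ (fun x => g (n * x + i))) / n
      rw [← add_div, ← Finset.sum_add_distrib]
      congr 1
      refine Finset.sum_congr rfl fun i _ => ?_
      exact hm.add _ _ (hf.comp fun x => n * x + i) (hg.comp fun x => n * x + i)
    · intro c f hf
      show (∑ i ∈ Finset.range n, μ (fun x => c * f (n * x + i))) / n =
        c * ((∑ i ∈ Finset.range n, μ (fun x => f (n * x + i))) / n)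
      rw [← mul_div_assoc, Finset.mul_sum]
      congr 1
      refine Finset.sum_congr rfl fun i _ => ?_
      exact hm.smul c _ (hf.comp fun x => n * x + i)
    · intro f hf h0
      exact div_nonneg (Finset.sum_nonneg fun i _ =>
        hm.nonneg _ (hf.comp fun x => n * x + i) fun x => h0 _) hn0.le
    · show (∑ i ∈ Finset.range n, μ (fun _ => 1)) / n = 1
      rw [hm.one]
      simp only [Finset.sum_const, Finset.card_range, nsmul_eq_mul, mul_one]
      exact div_self hn0.ne'
  refine ⟨ext φ, hφ, ?_, ?_⟩
  · intro f hf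
    rw [ext_apply φ hf, ext_apply φ (hf.comp fun x => x + 1)]
    show (∑ i ∈ Finset.range n, μ (fun x => f (n * x + i + 1))) / n =
      (∑ i ∈ Finset.range n, μ (fun x => f (n * x + i))) / n
    congr 1
    have h1 := Finset.sum_range_succ' (fun i => μ (fun x => f (n * x + i))) n
    have h2 := Finset.sum_range_succ (fun i => μ (fun x => f (n * x + i))) n
    have h3 : μ (fun x => f (n * x + n)) = μ (fun x => f (n * x + 0)) := by
      have h4 := hi (fun x => f (n * x)) (hf.comp fun x => n * x)
      rw [show (fun x => f (n * x + n)) = fun x => f (n * (x + 1)) from by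
        funext x; rw [Nat.mul_add, mul_one]]
      exact h4
    have h5 : ∑ i ∈ Finset.range n, μ (fun x => f (n * x + i + 1)) =
        ∑ i ∈ Finset.range n, μ (fun x => f (n * x + (i + 1))) := rfl
    rw [h5]
    linarith
  · rw [ext_apply φ (Bd.ind _)]
    refine div_pos ?_ hn0
    have h0 : (0 : ℕ) ∈ Finset.range n := Finset.mem_range.2 hn
    refine lt_of_lt_of_le ?_ (Finset.single_le_sum
      (f := fun i => μ (fun x => ind {y | ∃ x ∈ V, y = n * x} (n * x + i)))
      (fun i _ => hm.nonneg _ ((Bd.ind _).comp fun x => n * x + i) fun x => ind_nonneg _ _) h0)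
    have h1 : (fun x => ind {y | ∃ x ∈ V, y = n * x} (n * x + 0)) = ind V := by
      rw [ind_comp {y | ∃ x ∈ V, y = n * x} (fun x => n * x + 0)]
      congr 1
      ext x
      constructor
      · rintro ⟨z, hz, h⟩
        have h' : n * x = n * z := by simpa using h
        rw [Nat.eq_of_mul_eq_mul_left hn h']
        exact hz
      · intro hx
        exact ⟨x, hx, by simp⟩
    show 0 < μ (fun x => ind {y | ∃ x ∈ V, y = n * x} (n * x + 0))
    rw [h1]
    exact hpos

theorem holds_LDI : Pool.Agent.Helper73.RS.StLDI := by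
  intro n j V hn hV
  have h := ldi_zero n V hn hV
  rw [← large_shift _ j]
  refine h.mono ?_
  rintro y ⟨x, hx, rfl⟩
  exact ⟨x, hx, rfl⟩

end Pool.Agent.Helper67.RS
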